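import Mathlib
import Pool.Agent.V1187.MA.Part
import Pool.Agent.V1187.MA.LowP
import Pool.Agent.V1187.MA.UpP

/-!
Two-sided bounds for the partial sums of bounded univalent functions.
-/

namespace Pool.Agent.Results.MP_910507_an.OrderOfGrowth

open Set Metric
open Pool.Agent.V1187.MA

/-- The class `S(M)`: analytic and injective on the open unit disc, `f 0 = 0`, `f' 0 = 1` and
`|f| ≤ M`. -/
structure ClassSM (M : ℝ) (f : ℂ → ℂ) : Prop where
  diff : DifferentiableOn ℂ f (ball 0 1)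
  inj : InjOn f (ball 0 1)
  zero : f 0 = 0
  one : deriv f 0 = 1
  bound : ∀ z ∈ ball (0 : ℂ) 1, ‖f z‖ ≤ M

/-- The `n`-th partial sum of the Taylor series at the origin. -/
noncomputable def partialSum (f : ℂ → ℂ) (n : ℕ) (z : ℂ) : ℂ :=
  ∑ k ∈ Finset.range (n + 1), iteratedDeriv k f 0 / (k.factorial : ℂ) * z ^ k

/-- `Λ_n(M)`: the supremum, over the class `S(M)` and over the unit circle, of the modulus of the
`n`-th partial sum, in `[0, ∞]`. -/
noncomputable def Lam (n : ℕ) (M : ℝ) : ENNReal :=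
  ⨆ f ∈ {f : ℂ → ℂ | ClassSM M f}, ⨆ z ∈ sphere (0 : ℂ) 1, ENNReal.ofReal ‖partialSum f n z‖

lemma ClassSM.toInS {M : ℝ} {f : ℂ → ℂ} (h : ClassSM M f) : InS f :=
  ⟨h.diff, h.inj, h.zero, h.one⟩

lemma sum_eq (f : ℂ → ℂ) (n : ℕ) (z : ℂ) :
    partialSum f n z = ∑ m ∈ Finset.range (n + 1), Pool.Agent.H713R2.tc f m * z ^ m := by
  unfold partialSum Pool.Agent.H713R2.tc
  refine Finset.sum_congr rfl fun k _ => ?_
  rw [div_eq_inv_mul]

lemma mono {n : ℕ} {M M' : ℝ} (h : M ≤ M') : Lam n M ≤ Lam n M' := by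
  refine iSup₂_le fun f hf => ?_
  have hf' : f ∈ {f : ℂ → ℂ | ClassSM M' f} :=
    ⟨hf.diff, hf.inj, hf.zero, hf.one, fun z hz => (hf.bound z hz).trans h⟩
  exact le_iSup₂_of_le f hf' (le_refl _)

lemma one_le {n : ℕ} (hn : 1 ≤ n) {M : ℝ} (hM : 1 < M) : 1 ≤ Lam n M := by
  have hmem : (fun z : ℂ => z) ∈ {f : ℂ → ℂ | ClassSM M f} := by
    refine ⟨differentiableOn_id, fun z _ y _ h => h, rfl, ?_, fun z hz => ?_⟩
    · simp
    · rw [mem_ball_zero_iff] at hz
      linarith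
  have hone : (1 : ℂ) ∈ sphere (0 : ℂ) 1 := by simp
  refine le_trans ?_ (le_iSup₂_of_le (fun z : ℂ => z) hmem (le_iSup₂_of_le 1 hone (le_refl _)))
  have h1 : partialSum (fun z : ℂ => z) n 1 = 1 := by
    unfold partialSum
    rw [Finset.sum_eq_single 1]
    · simp
    · intro k _ hk
      rw [iteratedDeriv_fun_id_zero, if_neg hk]
      simp
    · intro h
      exact absurd (Finset.mem_range.2 (by omega)) h
  rw [h1, norm_one, ENNReal.ofReal_one]

lemma lower {n : ℕ} (hn : 16 ≤ n) {M : ℝ} (hM : 1 < M) (hMn : M ≤ (n : ℝ) ^ 2) :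
    ENNReal.ofReal (M / 300) ≤ Lam n M := by
  obtain ⟨z, hz, h⟩ := exists_large hM.le n hn hMn
  have hmem : pick M ∈ {f : ℂ → ℂ | ClassSM M f} :=
    ⟨pick_diff hM.le, pick_inj hM.le, pick_zero hM.le, pick_one hM.le,
      fun z hz => (pick_norm hM.le hz).le⟩
  have hzs : z ∈ sphere (0 : ℂ) 1 := mem_sphere_zero_iff_norm.2 hz
  refine le_trans ?_ (le_iSup₂_of_le (pick M) hmem (le_iSup₂_of_le z hzs (le_refl _)))
  rw [sum_eq]
  exact ENNReal.ofReal_le_ofReal h

theorem result (n : ℕ) (hn : 2 ≤ n) (M : ℝ) (hM : 1 < M) :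
    ENNReal.ofReal (min M ((n : ℝ) ^ 2) / 300) ≤ Lam n M ∧
    Lam n M ≤ ENNReal.ofReal
      (min (M * (1 + Real.sqrt ((n : ℝ) / (2 * (n + 1))))) (9 * (n : ℝ) ^ 2)) := by
  constructor
  · by_cases h16 : 16 ≤ n
    · rcases le_total M ((n : ℝ) ^ 2) with h | h
      · rw [min_eq_left h]
        exact lower h16 hM h
      · rw [min_eq_right h]
        have hn' : (16 : ℝ) ≤ n := by exact_mod_cast h16
        have h1 : (1 : ℝ) < (n : ℝ) ^ 2 := by nlinarith
        exact (lower h16 h1 (le_refl _)).trans (mono h)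
    · push Not at h16
      have hn' : (n : ℝ) ≤ 15 := by exact_mod_cast (by omega : n ≤ 15)
      have hn0 : (0 : ℝ) ≤ n := Nat.cast_nonneg n
      refine le_trans ?_ (one_le (by omega : 1 ≤ n) hM)
      rw [ENNReal.ofReal_le_one]
      have h1 : min M ((n : ℝ) ^ 2) ≤ (n : ℝ) ^ 2 := min_le_right _ _
      have h2 : (n : ℝ) ^ 2 ≤ 225 := by nlinarith
      linarith
  · refine iSup₂_le fun f hf => iSup₂_le fun z hz => ENNReal.ofReal_le_ofReal ?_
    rw [sum_eq]
    apply le_min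
    · exact partial_sum_le (ClassSM.toInS hf) (by linarith : 0 ≤ M) hf.bound
        (mem_sphere_zero_iff_norm.1 hz) n
    · exact partial_sum_sq (ClassSM.toInS hf) (mem_sphere_zero_iff_norm.1 hz) n hn

end Pool.Agent.Results.MP_910507_an.OrderOfGrowth
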